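import Pool.Agent.Helper74.CA.Stmts

set_option autoImplicit false

namespace Pool.Agent.Helper74.CA

open Subgroup

open scoped commutatorElement

theorem cub_mul {Q : Type} [Group Q] (X Y : Q) (hX : X ^ 3 = 1) (hY : Y ^ 3 = 1)
    (h1 : Commute ⁅Y, X⁆ X) (h2 : Commute ⁅Y, X⁆ Y) : (X * Y) ^ 3 = 1 := by
  obtain ⟨Z, hZ⟩ : ∃ Z, Z = ⁅Y, X⁆ := ⟨_, rfl⟩
  rw [← hZ] at h1 h2
  have hYX : Y * X = Z * X * Y := by
    rw [hZ, commutatorElement_def]
    group
  have hZ3 : Z ^ 3 = 1 := by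
    have e1 : Z * X = Y * X * Y⁻¹ := by
      rw [hYX]
      group
    have e2 : (Z * X) ^ 3 = 1 := by
      rw [e1, conj_pow, hX]
      group
    rw [h1.mul_pow, hX, mul_one] at e2
    exact e2
  have hXZ : X * Z = Z * X := h1.eq.symm
  have hYZ : Y * Z = Z * Y := h2.eq.symm
  calc (X * Y) ^ 3 = X * (Y * X) * (Y * X) * Y := by
        rw [pow_succ, pow_two]
        simp only [mul_assoc]
    _ = X * (Z * X * Y) * (Z * X * Y) * Y := by rw [hYX]
    _ = (X * Z) * X * (Y * Z) * X * Y * Y := by simp only [mul_assoc]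
    _ = (Z * X) * X * (Z * Y) * X * Y * Y := by rw [hXZ, hYZ]
    _ = Z * X * (X * Z) * (Y * X) * Y * Y := by simp only [mul_assoc]
    _ = Z * X * (Z * X) * (Z * X * Y) * Y * Y := by rw [hXZ, hYX]
    _ = Z * (X * Z) * (X * Z) * X * Y * Y * Y := by simp only [mul_assoc]
    _ = Z * (Z * X) * (Z * X) * X * Y * Y * Y := by rw [hXZ]
    _ = Z * Z * (X * Z) * X * X * Y * Y * Y := by simp only [mul_assoc]
    _ = Z * Z * (Z * X) * X * X * Y * Y * Y := by rw [hXZ]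
    _ = Z ^ 3 * (X ^ 3 * Y ^ 3) := by
        simp only [pow_succ, pow_zero, one_mul, mul_assoc]
    _ = 1 := by rw [hZ3, hX, hY, one_mul, one_mul]

theorem st_CUB (hCOS : ST_COS) (hCOMM : ST_COMM) : ST_CUB := by
  intro K _ _ a n h i x hx
  obtain ⟨c1, -, -, -, -, c6, c7, -⟩ := hCOMM K
  have hN : (gm K (3 * i)).Normal := c6 (3 * i)
  have hcl : ∀ x y : K, (x ∈ gm K i ∧ x ^ 3 ∈ gm K (3 * i)) → (y ∈ gm K i ∧ y ^ 3 ∈ gm K (3 * i)) →
      (x * y) ^ 3 ∈ gm K (3 * i) := by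
    rintro x y ⟨hx, hx3⟩ ⟨hy, hy3⟩
    have hf : ∀ z : K, QuotientGroup.mk' (gm K (3 * i)) z = 1 ↔ z ∈ gm K (3 * i) :=
      fun z => QuotientGroup.eq_one_iff z
    have hz : ⁅y, x⁆ ∈ gm K (i + i) := c1 i i (Subgroup.commutator_mem_commutator hy hx)
    have h3 : i + i + i = 3 * i := by ring
    have hzx : ⁅⁅y, x⁆, x⁆ ∈ gm K (3 * i) := by
      rw [← h3]
      exact c1 (i + i) i (Subgroup.commutator_mem_commutator hz hx)
    have hzy : ⁅⁅y, x⁆, y⁆ ∈ gm K (3 * i) := by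
      rw [← h3]
      exact c1 (i + i) i (Subgroup.commutator_mem_commutator hz hy)
    rw [← hf] at hx3 hy3 hzx hzy ⊢
    rw [map_pow] at hx3 hy3
    rw [map_commutatorElement, map_commutatorElement, commutatorElement_eq_one_iff_commute] at hzx hzy
    rw [map_pow, map_mul]
    exact cub_mul _ _ hx3 hy3 hzx hzy
  obtain ⟨S, hS⟩ : ∃ S : Subgroup K, ∀ x, x ∈ S ↔ x ∈ gm K i ∧ x ^ 3 ∈ gm K (3 * i) := by
    refine ⟨{ carrier := {x | x ∈ gm K i ∧ x ^ 3 ∈ gm K (3 * i)}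
              one_mem' := ⟨one_mem _, by rw [one_pow]; exact one_mem _⟩
              mul_mem' := fun {x y} hx hy => ⟨mul_mem hx.1 hy.1, hcl x y hx hy⟩
              inv_mem' := fun {x} hx => ⟨inv_mem hx.1, by rw [inv_pow]; exact inv_mem hx.2⟩ }, fun x => Iff.rfl⟩
  have ha : ∀ x ∈ gm K i, a x ∈ gm K i := fun x hx => c7 a.toMonoidHom i x hx
  obtain ⟨N, hNdef⟩ : ∃ N : Subgroup K, N = closure {y | ∃ x ∈ gm K i, y = x⁻¹ * a x} := ⟨_, rfl⟩
  have hNS : N ≤ S := by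
    rw [hNdef, closure_le]
    rintro y ⟨x, hx, rfl⟩
    refine (hS _).2 ⟨mul_mem (inv_mem hx) (ha x hx), ?_⟩
    rw [h.cs]
    exact one_mem _
  have hNa : ∀ x ∈ N, a x ∈ N := by
    intro x hx
    have h1 : N ≤ N.comap a.toMonoidHom := by
      conv_lhs => rw [hNdef]
      rw [closure_le]
      rintro y ⟨x, hx, rfl⟩
      show a (x⁻¹ * a x) ∈ N
      rw [hNdef]
      refine subset_closure ⟨a x, ha x hx, ?_⟩
      rw [map_mul, map_inv]
    exact h1 hx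
  have hcop : n.Coprime (Nat.card N) := Nat.Coprime.coprime_dvd_right (card_subgroup_dvd_card N) h.cop
  obtain ⟨m, hm, hfix⟩ := hCOS K a n N h.an hcop hNa x (by
    rw [hNdef]
    exact subset_closure ⟨x, hx, rfl⟩)
  have hmS := (hS m).1 (hNS hm)
  have hc : x * m ∈ S := (hS _).2 ⟨mul_mem hx hmS.1, by
    rw [h.cc _ hfix]
    exact one_mem _⟩
  have hxS : x ∈ S := by
    have h1 : x = x * m * m⁻¹ := by group
    rw [h1]
    exact mul_mem hc (inv_mem (hNS hm))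
  exact ((hS x).1 hxS).2

end Pool.Agent.Helper74.CA
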